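import Pool.Agent.W425.GN.Defs4

/-!
# GN-F4: the local ring of a point
-/

set_option autoImplicit false

namespace Pool.Agent.W565.GN

open MvPolynomial Pool.Agent.W425.GN

theorem taskF4 : TaskF4 := by
  intro F _ r Z
  obtain ⟨b, hb⟩ := IsLocalization.exist_integer_multiples_of_finset
    (nonZeroDivisors (MvPolynomial (Fin r) F)) Z
  obtain ⟨g, hg⟩ : ∃ g : MvPolynomial (Fin r) F, g = (b : MvPolynomial (Fin r) F) := ⟨_, rfl⟩
  have hg0 : g ≠ 0 := by
    rw [hg]
    exact nonZeroDivisors.ne_zero b.2
  refine ⟨g, hg0, fun {L} _ _ a ha => ?_⟩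
  let ev : MvPolynomial (Fin r) F →+* L := (aeval a : MvPolynomial (Fin r) F →ₐ[F] L).toRingHom
  have hev : ∀ p, ev p = aeval a p := fun p => rfl
  let P : Ideal (MvPolynomial (Fin r) F) := RingHom.ker ev
  have hP : P.IsPrime := RingHom.ker_isPrime ev
  have hgP : g ∈ P.primeCompl := by
    intro h
    exact ha ((RingHom.mem_ker).1 h)
  have hcompl : P.primeCompl ≤ nonZeroDivisors (MvPolynomial (Fin r) F) := by
    intro p hp
    apply mem_nonZeroDivisors_of_ne_zero
    intro h0
    apply hp
    rw [h0]
    exact P.zero_mem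
  have hu1 : ∀ y : P.primeCompl, IsUnit (algebraMap (MvPolynomial (Fin r) F)
      (FractionRing (MvPolynomial (Fin r) F)) y) := by
    intro y
    exact IsLocalization.map_units _
      (⟨y, hcompl y.2⟩ : nonZeroDivisors (MvPolynomial (Fin r) F))
  have hu2 : ∀ y : P.primeCompl, IsUnit (ev y) := by
    intro y
    apply isUnit_iff_ne_zero.mpr
    intro h0
    exact y.2 ((RingHom.mem_ker).2 h0)
  let ι : Localization.AtPrime P →+* FractionRing (MvPolynomial (Fin r) F) :=
    IsLocalization.lift (M := P.primeCompl) hu1
  let e : Localization.AtPrime P →+* L := IsLocalization.lift (M := P.primeCompl) hu2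
  have hι : ∀ p, ι (algebraMap _ _ p) = algebraMap (MvPolynomial (Fin r) F)
        (FractionRing (MvPolynomial (Fin r) F)) p := fun p => IsLocalization.lift_eq hu1 p
  have he : ∀ p, e (algebraMap _ _ p) = ev p := fun p => IsLocalization.lift_eq hu2 p
  refine ⟨Localization.AtPrime P, inferInstance, ι, algebraMap _ _, e, ?_, ?_, hι, ?_, ?_⟩
  · change Function.Injective (IsLocalization.lift (M := P.primeCompl) hu1)
    rw [IsLocalization.lift_injective_iff]
    intro x y
    constructor
    · intro h
      rw [IsLocalization.injective (Localization.AtPrime P) hcompl h]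
    · intro h
      rw [IsFractionRing.injective (MvPolynomial (Fin r) F)
        (FractionRing (MvPolynomial (Fin r) F)) h]
  · intro z hz
    obtain ⟨p, hp⟩ := hb z hz
    rw [← hg] at hp
    refine ⟨IsLocalization.mk' (Localization.AtPrime P) p (⟨g, hgP⟩ : P.primeCompl), ?_⟩
    have h1 : IsLocalization.mk' (Localization.AtPrime P) p (⟨g, hgP⟩ : P.primeCompl) *
        algebraMap _ _ g = algebraMap _ _ p :=
      IsLocalization.mk'_spec _ p (⟨g, hgP⟩ : P.primeCompl)
    have h2 := congrArg ι h1
    rw [map_mul, hι, hι, hp, Algebra.smul_def, mul_comm] at h2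
    have hga : algebraMap (MvPolynomial (Fin r) F) (FractionRing (MvPolynomial (Fin r) F)) g ≠ 0 := by
      intro h
      exact hg0 ((IsFractionRing.injective (MvPolynomial (Fin r) F)
        (FractionRing (MvPolynomial (Fin r) F))) (by rw [h, map_zero]))
    exact mul_left_cancel₀ hga h2
  · intro p
    rw [he, hev]
  · intro y hy
    obtain ⟨p, s, rfl⟩ := IsLocalization.exists_mk'_eq P.primeCompl y
    have hp : p ∈ P.primeCompl := by
      intro h
      apply hy
      have h1 : IsLocalization.mk' (Localization.AtPrime P) p s *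
        algebraMap (MvPolynomial (Fin r) F) _ (s : MvPolynomial (Fin r) F) =
        algebraMap _ _ p := IsLocalization.mk'_spec _ p s
      have h2 := congrArg e h1
      rw [map_mul, he, he, (RingHom.mem_ker).1 h] at h2
      rcases mul_eq_zero.1 h2 with h3 | h3
      · exact h3
      · exact absurd h3 (hu2 s).ne_zero
    have h1 : IsLocalization.mk' (Localization.AtPrime P) p s *
        algebraMap (MvPolynomial (Fin r) F) _ (s : MvPolynomial (Fin r) F) =
      algebraMap _ _ p := IsLocalization.mk'_spec _ p s
    have h2 : IsUnit (algebraMap (MvPolynomial (Fin r) F) (Localization.AtPrime P) p) :=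
      IsLocalization.map_units _ (⟨p, hp⟩ : P.primeCompl)
    rw [← h1] at h2
    exact isUnit_of_mul_isUnit_left h2

end Pool.Agent.W565.GN
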